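import Pool.Agent.T6.H66.PS.Rows

set_option autoImplicit false

open Filter Topology Set Metric unitInterval

namespace Pool.Agent.T6.H66.PS

open Pool.Agent.H789R2.AN Pool.Agent.H789R2.GP Pool.Agent.H721R2

theorem chain_const {X : Type*} {R : X → X → Prop} (hR : ∀ x, R x x) (n : ℕ) (x : X) :
    Chain R n x x := ⟨fun _ => x, rfl, rfl, fun _ _ => hR x⟩

theorem chain_pad {X : Type*} {R : X → X → Prop} (hR : ∀ x, R x x) {n m : ℕ} {x y : X}
    (h : Chain R n x y) (hnm : n ≤ m) : Chain R m x y := by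
  have h1 := h.trans (chain_const hR (m - n) y)
  rwa [Nat.add_sub_cancel' hnm] at h1

/-- flattening of iterates -/
theorem chain_iter {X : Type*} {R : X → X → Prop} {B : ℕ} (f : X → X)
    (hB : ∀ x y, R x y → Chain R B (f x) (f y)) (n : ℕ) {N : ℕ} {x y : X} (h : Chain R N x y) :
    Chain R (B ^ n * N) (f^[n] x) (f^[n] y) := by
  induction n with
  | zero => simpa using h
  | succ n ih =>
    rw [Function.iterate_succ_apply', Function.iterate_succ_apply', pow_succ', mul_assoc]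
    exact ih.flatten f hB

variable {X : Type*} [MetricSpace X]

theorem SR_of_close [CompactSpace X] {g : X ≃ₜ X} {c : ℝ} (h : LP g c) {ρ : ℝ} (hρ : 0 < ρ) :
    ∃ ρ' > 0, ∀ x y : X, SR g c x y → dist x y < ρ' → SR g ρ x y := by
  obtain ⟨K, hK⟩ := pow_half_small c hρ
  obtain ⟨η, hη, h1⟩ := T1_unif g K hρ
  refine ⟨η, hη, fun x y hxy hd k => ?_⟩
  rcases le_total k K with hk | hk
  · exact (h1 k hk x y hd).le
  · exact (h.cS x y hxy k).trans (hK k hk)

/-- The parameters of a path in a stable leaf are joined by finite chains of small steps. -/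
theorem chain_path [CompactSpace X] {g : X ≃ₜ X} (υ : C(I, SM g)) {ρ : ℝ} (hρ : 0 < ρ) :
    ∃ n : ℕ, ∀ t : I, Chain (fun s t : I => SR g ρ (υ s).val (υ t).val) n 0 t := by
  have hu := CompactSpace.uniformContinuous_of_continuous υ.continuous
  rw [Metric.uniformContinuous_iff] at hu
  obtain ⟨δ, hδ, h1⟩ := hu ρ hρ
  obtain ⟨N, hN⟩ := exists_nat_gt (1 / δ)
  have hN0 : 0 < (N : ℝ) := lt_trans (by positivity) hN
  refine ⟨N, fun t => ?_⟩
  refine ⟨fun i => Set.projIcc 0 1 zero_le_one ((t : ℝ) * (i / N)), by simp, ?_, ?_⟩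
  · show Set.projIcc 0 1 zero_le_one ((t : ℝ) * ((N : ℕ) / N)) = t
    rw [div_self hN0.ne', mul_one]
    exact Set.projIcc_val zero_le_one t
  · intro i _
    refine (SM.dist_le _ _ hρ.le).mp (h1 ?_).le
    have h4 := (LipschitzWith.projIcc (zero_le_one (α := ℝ))).dist_le_mul
        ((t : ℝ) * (i / N)) ((t : ℝ) * ((i + 1 : ℕ) / N))
    rw [NNReal.coe_one, one_mul] at h4
    refine lt_of_le_of_lt h4 ?_
    rw [Real.dist_eq]
    have e : (t : ℝ) * (i / N) - (t : ℝ) * ((i + 1 : ℕ) / N) = - (t * (1 / N)) := by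
      push_cast
      field_simp
      ring
    rw [e, abs_neg, abs_of_nonneg (mul_nonneg t.2.1 (by positivity))]
    have h5 : (t : ℝ) * (1 / N) ≤ 1 * (1 / N) := mul_le_mul_of_nonneg_right t.2.2 (by positivity)
    refine lt_of_le_of_lt h5 ?_
    rw [one_mul, one_div_lt hN0 hδ]
    exact hN

/-- Small stable steps are subdivided into a bounded number of steps of a given size. -/
theorem subd [CompactSpace X] {g : X ≃ₜ X} {c : ℝ} (h : LP g c) (hX : ULC X) : ∃ κ > 0, ∀ ρ > 0,
    ∃ B : ℕ, ∀ x y : X, SR g κ x y → Chain (SR g ρ) B x y := by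
  classical
  have hc := h.c_pos
  obtain ⟨η, hη, h1⟩ := leaf_path h hX (c / 3) (by linarith)
  refine ⟨η, hη, fun ρ hρ => ?_⟩
  obtain ⟨ρ', hρ', h2⟩ := SR_of_close h hρ
  obtain ⟨T, -, hT⟩ := (isCompact_univ : IsCompact (univ : Set X)).elim_nhds_subcover
    (fun x => ball x (ρ' / 2)) (fun x _ => ball_mem_nhds x (half_pos hρ'))
  refine ⟨2 * T.card, fun x y hxy => ?_⟩
  obtain ⟨υ, hυ0, hυ1, hυ⟩ := h1 ⟨x⟩ ⟨y⟩ ((SM.dist_le _ _ hη.le).mpr hxy)
  set R : I → I → Prop := fun s t => SR g ρ (υ s).val (υ t).val with hR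
  have hRr : ∀ t, R t t := fun t => SR_refl g hρ.le _
  have hex : ∃ n, Chain R n 0 1 := by
    obtain ⟨n, hn⟩ := chain_path υ hρ
    exact ⟨n, hn 1⟩
  have hshort : ∀ s t : I, dist (υ s).val (υ t).val < ρ' → R s t := by
    intro s t hst
    refine h2 _ _ ?_ hst
    have a1 := (SM.dist_le _ _ (by linarith : (0:ℝ) ≤ c / 3)).mp (hυ s)
    have a2 := (SM.dist_le _ _ (by linarith : (0:ℝ) ≤ c / 3)).mp (hυ t)
    exact (SR_tr a1.symm' a2).mono (by linarith)
  have hmin : Nat.find hex ≤ 2 * T.card := by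
    by_contra hcon
    push Not at hcon
    obtain ⟨τ, hτ0, hτ1, hτ⟩ := Nat.find_spec hex
    set n := Nat.find hex with hn
    -- centres
    have hcen : ∀ s : I, ∃ z ∈ T, dist (υ s).val z < ρ' / 2 := by
      intro s
      have h5 := hT (mem_univ (υ s).val)
      rw [mem_iUnion₂] at h5
      obtain ⟨z, hz, hz'⟩ := h5
      exact ⟨z, hz, hz'⟩
    choose z hzT hz using hcen
    have hpig : ∃ i ∈ Finset.range (T.card + 1), ∃ j ∈ Finset.range (T.card + 1), i ≠ j ∧
        z (τ (2 * i)) = z (τ (2 * j)) := by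
      apply Finset.exists_ne_map_eq_of_card_lt_of_maps_to (t := T)
      · rw [Finset.card_range]; omega
      · intro i _
        exact hzT _
    obtain ⟨i, hi, j, hj, hij, he⟩ := hpig
    rw [Finset.mem_range] at hi hj
    -- wlog i < j
    have main : ∀ i j : ℕ, i < T.card + 1 → j < T.card + 1 → i < j →
        z (τ (2 * i)) = z (τ (2 * j)) → False := by
      intro i j hi hj hij he
      have hd : dist (υ (τ (2 * i))).val (υ (τ (2 * j))).val < ρ' := by
        have a1 := hz (τ (2 * i))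
        have a2 := hz (τ (2 * j))
        rw [← he] at a2
        have a3 := dist_triangle_right (υ (τ (2 * i))).val (υ (τ (2 * j))).val (z (τ (2 * i)))
        linarith
      have c1 : Chain R (2 * i) 0 (τ (2 * i)) := ⟨τ, hτ0, rfl, fun r hr => hτ r (by omega)⟩
      have c2 : Chain R 1 (τ (2 * i)) (τ (2 * j)) := Chain.single (hshort _ _ hd)
      have c3 : Chain R (n - 2 * j) (τ (2 * j)) 1 := by
        refine ⟨fun r => τ (2 * j + r), rfl, ?_, fun r hr => ?_⟩
        · show τ (2 * j + (n - 2 * j)) = 1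
          rw [Nat.add_sub_cancel' (by omega), hτ1]
        · exact hτ (2 * j + r) (by omega)
      have c4 := (c1.trans c2).trans c3
      have h6 := Nat.find_min' hex c4
      omega
    rcases lt_or_gt_of_ne hij with h5 | h5
    · exact main i j hi hj h5 he
    · exact main j i hj hi h5 he.symm
  have h7 := chain_pad hRr (Nat.find_spec hex) hmin
  obtain ⟨τ, hτ0, hτ1, hτ⟩ := h7
  refine ⟨fun i => (υ (τ i)).val, ?_, ?_, fun i hi => hτ i hi⟩
  · show (υ (τ 0)).val = x
    rw [hτ0, hυ0]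
  · show (υ (τ (2 * T.card))).val = y
    rw [hτ1, hυ1]

end Pool.Agent.T6.H66.PS
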