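import Pool.Agent.T6.H66.PS.Cov

set_option autoImplicit false
set_option linter.unusedSectionVars false

open Filter Topology Set Metric
open scoped Manifold ContDiff

namespace Pool.Agent.T6.H66.PS

open Pool.Agent.H789R2.AN Pool.Agent.H789R2.GP Pool.Agent.H721R2

section manifold

variable {E : Type*} [NormedAddCommGroup E] [NormedSpace ℝ E] [FiniteDimensional ℝ E]
  {M : Type*} [TopologicalSpace M] [T2Space M] [CompactSpace M] [ConnectedSpace M]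
  [ChartedSpace E M] [IsManifold 𝓘(ℝ, E) ∞ M]

/-- A version of `exists_sys` with a positive number of iterates. -/
theorem exists_sys_pos {F : Type*} [NormedAddCommGroup F] [NormedSpace ℝ F]
    {M : Type*} [MetricSpace M] [CompactSpace M] [ChartedSpace E M] [IsManifold 𝓘(ℝ, E) 1 M]
    {e : M → F} (hiso : ∀ x y, dist x y = ‖e x - e y‖)
    (he : ContMDiff 𝓘(ℝ, E) 𝓘(ℝ, F) 1 e) (hinj : ∀ x, Function.Injective (dm E e x))
    (f : Diffeomorph 𝓘(ℝ, E) 𝓘(ℝ, E) M M 1)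
    (Es Eu : ∀ x : M, Submodule ℝ (TangentSpace 𝓘(ℝ, E) x)) (h : IsAnosov f Es Eu) :
    ∃ (n : ℕ) (S : HypSys M F), 1 ≤ n ∧ S.g = iterHomeo f.toHomeomorph n := by
  obtain ⟨C, a, b, Ls, Lu, hE⟩ := eanosov_of_isAnosov e he hinj f Es Eu h
  obtain ⟨K, hK, hang⟩ := hE.angle he hinj
  have t1 : Tendsto (fun n : ℕ => K * (C * a ^ n)) atTop (𝓝 0) := by
    have := ((tendsto_pow_atTop_nhds_zero_of_lt_one hE.a_pos.le hE.a_lt).const_mul C).const_mul K
    simpa using this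
  have t2 : Tendsto (fun n : ℕ => K * (C * b ^ n)) atTop (𝓝 0) := by
    have := ((tendsto_pow_atTop_nhds_zero_of_lt_one hE.b_pos.le hE.b_lt).const_mul C).const_mul K
    simpa using this
  obtain ⟨n, ⟨h1, h2⟩, h3⟩ := ((((tendsto_order.mp t1).2 (1 / 16) (by norm_num)).and
    ((tendsto_order.mp t2).2 (1 / 16) (by norm_num))).and (eventually_ge_atTop 1)).exists
  obtain ⟨S, hS, -⟩ := exists_hypSys' hiso he hinj hE K hK hang n h1.le h2.le
  exact ⟨n, S, h3, hS⟩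

/-- **Coarse pinching implies the covering by Euclidean space.** -/
theorem man_pin (f : Diffeomorph 𝓘(ℝ, E) 𝓘(ℝ, E) M M 1)
    (Es Eu : ∀ x : M, Submodule ℝ (TangentSpace 𝓘(ℝ, E) x)) (hA : IsAnosov f Es Eu)
    (hP : ∀ 𝒱 ∈ 𝓝ˢ (diagonal M), ∃ 𝒰 ∈ 𝓝ˢ (diagonal M), 𝒰 ⊆ 𝒱 ∧
      ∀ K : ℕ, ∃ k l R S : ℕ,
        (∀ x y, (∀ i : ℕ, (f^[i] x, f^[i] y) ∈ 𝒰) →
          Chain (fun x y => ∀ i : ℕ, (f^[i] x, f^[i] y) ∈ 𝒰) R (f.symm^[k] x) (f.symm^[k] y)) ∧
        (∀ x y, Chain (fun x y => ∀ i : ℕ, (f^[i] x, f^[i] y) ∈ 𝒰) (K * R) x y →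
          ∀ i : ℕ, (f^[i] (f^[k + l] x), f^[i] (f^[k + l] y)) ∈ 𝒰) ∧
        (∀ x y, (∀ i : ℕ, (f.symm^[i] x, f.symm^[i] y) ∈ 𝒰) →
          Chain (fun x y => ∀ i : ℕ, (f.symm^[i] x, f.symm^[i] y) ∈ 𝒰) S (f^[l] x) (f^[l] y)) ∧
        (∀ x y, Chain (fun x y => ∀ i : ℕ, (f.symm^[i] x, f.symm^[i] y) ∈ 𝒰) (K * S) x y →
          ∀ i : ℕ, (f.symm^[i] (f.symm^[k + l] x), f.symm^[i] (f.symm^[k + l] y)) ∈ 𝒰)) :
    ∃ π : E → M, IsCoveringMap π ∧ Function.Surjective π := by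
  obtain ⟨m, e, he, hemb, hinj⟩ := exists_embedding_euclidean_of_compact (I := 𝓘(ℝ, E)) (M := M)
  let _ : MetricSpace M := hemb.isEmbedding.comapMetricSpace e
  have hiso : ∀ x y : M, dist x y = ‖e x - e y‖ := fun x y => dist_eq_norm (e x) (e y)
  have he1 : ContMDiff 𝓘(ℝ, E) (𝓡 m) 1 e := he.of_le (by simp)
  obtain ⟨n, S, hn, hSg⟩ := exists_sys_pos hiso he1 hinj f Es Eu hA
  have : ProperSpace E := FiniteDimensional.proper_real E
  obtain ⟨c, hLP⟩ := exists_LP S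
  have hX : ULC M := ulc_of_charted (X := M) (E := E)
  set F : M ≃ₜ M := f.toHomeomorph with hF
  have hg : ∀ k x, S.g^[k] x = F^[n * k] x := fun k x => by
    rw [hSg, Function.iterate_mul]; rfl
  have hg' : ∀ k x, S.g.symm^[k] x = F.symm^[n * k] x := fun k x => by
    rw [hSg, Function.iterate_mul]; rfl
  have hgF : ∀ x, F (S.g x) = S.g (F x) := fun x => by
    have h1 := hg 1 x
    have h2 := hg 1 (F x)
    simp only [Function.iterate_one, mul_one] at h1 h2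
    rw [h1, h2]
    exact (Function.iterate_succ_apply' F n x).symm.trans (Function.iterate_succ_apply F n x)
  obtain ⟨κ, hκ, hall⟩ := all_Lf hLP hX
  obtain ⟨κs, hκs, sbs⟩ := subd hLP hX
  obtain ⟨κu, hκu, sbu⟩ := subd hLP.symm hX
  obtain ⟨κs', hκs', ms⟩ := map_SM (g := S.g) (φ := F.symm) (comm_symm_left hgF) κs hκs
  obtain ⟨κu', hκu', mu⟩ := map_SM (g := S.g.symm) (φ := F) (comm_symm_right hgF) κu hκu
  set r := min κ (min κs' κu') with hr
  have hr0 : 0 < r := by positivity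
  have r1 : r ≤ κ := min_le_left _ _
  have r2 : r ≤ κs' := (min_le_right _ _).trans (min_le_left _ _)
  have r3 : r ≤ κu' := (min_le_right _ _).trans (min_le_right _ _)
  have hV : {p : M × M | dist p.1 p.2 < r} ∈ 𝓝ˢ (diagonal M) := by
    rw [nhdsSet_diagonal_eq_uniformity]
    exact Metric.dist_mem_uniformity hr0
  obtain ⟨𝒰, h𝒰, hsub, hpin⟩ := hP _ hV
  rw [nhdsSet_diagonal_eq_uniformity] at h𝒰
  obtain ⟨ρ, hρ, hρ𝒰⟩ := Metric.mem_uniformity_dist.mp h𝒰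
  have hSS : ∀ x y, Stp F 𝒰 x y → SR S.g r x y := fun x y hxy k => by
    rw [hg, hg]; exact (hsub (hxy _)).le
  have hUU : ∀ x y, Stp F.symm 𝒰 x y → SR S.g.symm r x y := fun x y hxy k => by
    rw [hg', hg']; exact (hsub (hxy _)).le
  have hres : ∀ (G H : M ≃ₜ M), (∀ k x, H^[k] x = G^[n * k] x) → ∃ ρ' > 0, ∀ x y,
      SR H ρ' x y → Stp G 𝒰 x y := by
    intro G H hGH
    obtain ⟨η, hη, h1⟩ := T1_unif G n hρ
    refine ⟨η / 2, half_pos hη, fun x y hxy k => hρ𝒰 ?_⟩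
    have h2 := Nat.div_add_mod k n
    have h3 := Nat.mod_lt k (show 0 < n by omega)
    have h4 : ∀ z : M, G^[k] z = G^[k % n] (H^[k / n] z) := fun z => by
      rw [hGH, ← Function.iterate_add_apply]
      congr 1
      omega
    rw [h4, h4]
    exact h1 _ h3.le _ _ (lt_of_le_of_lt (hxy _) (half_lt_self hη))
  obtain ⟨ρs, hρs, hS'⟩ := hres F S.g hg
  obtain ⟨ρu, hρu, hU'⟩ := hres F.symm S.g.symm hg'
  obtain ⟨Bs, hBs⟩ := sbs ρs hρs
  obtain ⟨Bu, hBu⟩ := sbu ρu hρu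
  have hSr : ∀ x, Stp F 𝒰 x x := fun x => hS' x x (SR_refl _ hρs.le x)
  have hUr : ∀ x, Stp F.symm 𝒰 x x := fun x => hU' x x (SR_refl _ hρu.le x)
  have hpin' : CPin F (Stp F 𝒰) (Stp F.symm 𝒰) := hpin
  have hcp : CPin S.g (Stp F 𝒰) (Stp F.symm 𝒰) := by
    refine cpin_iter hn hg hg' _ _ hSr hUr ?_ ?_ (max 1 (max Bs Bu)) (le_max_left _ _) ?_ ?_ hpin'
    · intro x y hxy k
      have := hxy (k + 1)
      rwa [Function.iterate_succ_apply, Function.iterate_succ_apply] at this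
    · intro x y hxy k
      have := hxy (k + 1)
      rwa [Function.iterate_succ_apply, Function.iterate_succ_apply] at this
    · intro x y hxy
      refine chain_pad hSr ((hBs _ _ (ms _ _ ((hSS x y hxy).mono r2))).mono hS')
        ((le_max_left _ _).trans (le_max_right _ _))
    · intro x y hxy
      refine chain_pad hUr ((hBu _ _ (mu _ _ ((hUU x y hxy).mono r3))).mono hU')
        ((le_max_right _ _).trans (le_max_right _ _))
  have hLf := hall (Stp F 𝒰) (Stp F.symm 𝒰) (fun x y hxy => (hSS x y hxy).mono r1) ⟨ρs, hρs, hS'⟩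
    (fun x y hxy => (hUU x y hxy).mono r1) ⟨ρu, hρu, hU'⟩ hcp
  obtain ⟨π, hπ⟩ := cov_of_Lf (E := E) S hLP hLf
  exact ⟨π, hπ, covering_surj hπ⟩

end manifold

end Pool.Agent.T6.H66.PS
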