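import Pool.Agent.T6.H66.PS.Sub

set_option autoImplicit false

open Filter Topology Set Metric unitInterval

namespace Pool.Agent.T6.H66.PS

open Pool.Agent.H789R2.AN Pool.Agent.H789R2.GP Pool.Agent.H721R2

variable {X : Type*} [MetricSpace X]

/-- The coarse pinching condition for the stable steps `LS` and the unstable steps `LU`. -/
def CPin (g : X ≃ₜ X) (LS LU : X → X → Prop) : Prop :=
  ∀ K : ℕ, ∃ k l R S : ℕ,
    (∀ x y, LS x y → Chain LS R (g.symm^[k] x) (g.symm^[k] y)) ∧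
    (∀ x y, Chain LS (K * R) x y → LS (g^[k + l] x) (g^[k + l] y)) ∧
    (∀ x y, LU x y → Chain LU S (g^[l] x) (g^[l] y)) ∧
    (∀ x y, Chain LU (K * S) x y → LU (g.symm^[k + l] x) (g.symm^[k + l] y))

theorem all_Lf [CompactSpace X] {g : X ≃ₜ X} {c : ℝ} (h : LP g c) (hX : ULC X) :
    ∃ κ > 0, ∀ LS LU : X → X → Prop,
      (∀ x y, LS x y → SR g κ x y) → (∃ ρ > 0, ∀ x y, SR g ρ x y → LS x y) →
      (∀ x y, LU x y → SR g.symm κ x y) → (∃ ρ > 0, ∀ x y, SR g.symm ρ x y → LU x y) →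
      CPin g LS LU → ∀ a s, WS g a s → Lf g a s := by
  have hc := h.c_pos
  obtain ⟨κ₁, hκ₁, hκ₁c, lad⟩ := ladder h
  obtain ⟨κ₂, hκ₂, rows⟩ := lift_of_rows h
  obtain ⟨κ₃, hκ₃, sb⟩ := subd h.symm hX
  obtain ⟨κ₄, hκ₄, hmap⟩ := map_SM (g := g.symm) (φ := g)
    (fun x => by rw [g.symm_apply_apply, g.apply_symm_apply]) κ₃ hκ₃
  set κ := min (min κ₁ κ₂) κ₄ with hκ
  have hκ0 : 0 < κ := by positivity
  have e1 : κ ≤ κ₁ := (min_le_left _ _).trans (min_le_left _ _)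
  have e2 : κ ≤ κ₂ := (min_le_left _ _).trans (min_le_right _ _)
  have e4 : κ ≤ κ₄ := min_le_right _ _
  refine ⟨κ, hκ0, ?_⟩
  rintro LS LU hS ⟨ρs, hρs, hS'⟩ hU ⟨ρu, hρu, hU'⟩ hP a s has υ hυ
  have hSr : ∀ x, LS x x := fun x => hS' x x (SR_refl g hρs.le x)
  have hUr : ∀ x, LU x x := fun x => hU' x x (SR_refl g.symm hρu.le x)
  obtain ⟨B, hB⟩ := sb ρu hρu
  have hBL : ∀ x y, LU x y → Chain LU B (g x) (g y) := fun x y hxy =>
    (hB _ _ (hmap _ _ ((hU x y hxy).mono e4))).mono hU'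
  obtain ⟨j₀, hj₀⟩ := pow_half_small c (lt_min hρs hρu)
  have hj1 : ∀ x y, SR g (c / 8) x y → LS (g^[j₀] x) (g^[j₀] y) := fun x y hxy => by
    apply hS'
    intro k
    rw [← Function.iterate_add_apply, ← Function.iterate_add_apply]
    exact (h.cS _ _ (hxy.mono (by linarith)) _).trans ((hj₀ _ (by omega)).trans (min_le_left _ _))
  have hj2 : ∀ x y, SR g.symm (c / 8) x y → LU (g.symm^[j₀] x) (g.symm^[j₀] y) := fun x y hxy => by
    apply hU'
    intro k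
    rw [← Function.iterate_add_apply, ← Function.iterate_add_apply]
    exact (h.cU _ _ (hxy.mono (by linarith)) _).trans ((hj₀ _ (by omega)).trans (min_le_right _ _))
  -- the stable chain
  obtain ⟨L, hL⟩ : ∃ L, Chain LS L a s := by
    obtain ⟨γ, hγ0, hγ1⟩ := leaf_conn h hX a s has
    obtain ⟨n, hn⟩ := chain_path γ hρs
    obtain ⟨τ, hτ0, hτ1, hτ⟩ := hn 1
    refine ⟨n, fun i => (γ (τ i)).val, ?_, ?_, fun i hi => hS' _ _ (hτ i hi)⟩
    · show (γ (τ 0)).val = a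
      rw [hτ0, hγ0]
    · show (γ (τ n)).val = s
      rw [hτ1, hγ1]
  -- the unstable chains
  obtain ⟨R₀, hR₀⟩ : ∃ R₀, ∀ t, Chain LU R₀ a (υ t).val := by
    obtain ⟨n, hn⟩ := chain_path υ hρu
    refine ⟨n, fun t => ?_⟩
    obtain ⟨τ, hτ0, hτ1, hτ⟩ := hn t
    refine ⟨fun i => (υ (τ i)).val, ?_, ?_, fun i hi => hU' _ _ (hτ i hi)⟩
    · show (υ (τ 0)).val = a
      rw [hτ0, hυ]
    · show (υ (τ n)).val = (υ t).val
      rw [hτ1]
  obtain ⟨k, l, R, S, P1, P2, P3, P4⟩ := hP (max L (R₀ * B ^ j₀))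
  have hKL : R * L ≤ max L (R₀ * B ^ j₀) * R := by
    rw [mul_comm]
    exact Nat.mul_le_mul_right _ (le_max_left _ _)
  have hKR : B ^ j₀ * (S * R₀) ≤ max L (R₀ * B ^ j₀) * S := by
    have : B ^ j₀ * (S * R₀) = (R₀ * B ^ j₀) * S := by ring
    rw [this]
    exact Nat.mul_le_mul_right _ (le_max_right _ _)
  obtain ⟨p, hp0, hpJ, hp⟩ := hL.flatten (g.symm^[k]) P1
  let υk : C(I, SM g.symm) := ⟨fun t => ⟨g.symm^[k] (υ t).val⟩,
    (SM.continuous_mapIter (g := g.symm) (φ := g.symm) (fun _ => rfl) k).comp υ.continuous⟩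
  have hM : ∀ v : X, g^[k + l + j₀] v = g^[j₀] (g^[l] (g^[k] v)) := fun v => by
    rw [← Function.iterate_add_apply, ← Function.iterate_add_apply]
    congr 1
    omega
  have hM2 : ∀ v : X, g^[k + l + j₀] v = g^[k + l] (g^[j₀] v) := fun v => by
    rw [← Function.iterate_add_apply]
  have hM3 : ∀ v : X, g.symm^[k + l + j₀] v = g.symm^[k + l] (g.symm^[j₀] v) := fun v => by
    rw [← Function.iterate_add_apply]
  have hA : ∀ j ≤ R * L, ∀ x x' : X, Chain (SR g (c / 8)) j x x' →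
      SR g κ (g^[k + l + j₀] x) (g^[k + l + j₀] x') := by
    intro j hj x x' hxx
    rw [hM2, hM2]
    exact hS _ _ (P2 _ _ (chain_pad hSr (hxx.map (g^[j₀]) hj1) (hj.trans hKL)))
  have hBB : ∀ i ≤ B ^ j₀ * (S * R₀), ∀ x x' : X, Chain (SR g.symm (c / 8)) i x x' →
      SR g.symm κ (g.symm^[k + l + j₀] x) (g.symm^[k + l + j₀] x') := by
    intro i hi x x' hxx
    rw [hM3, hM3]
    exact hU _ _ (P4 _ _ (chain_pad hUr (hxx.map (g.symm^[j₀]) hj2) (hi.trans hKR)))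
  have hrows := rows (R * L) p υk (fun j hj => (hS _ _ (hp j hj)).mono e2)
    (by rw [hp0]; show g.symm^[k] (υ 0).val = _; rw [hυ]) (fun t => by
      obtain ⟨y, hy0, hyN, hy⟩ := chain_iter g hBL j₀ ((hR₀ t).flatten (g^[l]) P3)
      obtain ⟨q, hq0, hqS, hqU⟩ := lad (k + l + j₀) (R * L) (B ^ j₀ * (S * R₀)) p y
        (fun j hj => (hS _ _ (hp j hj)).mono e1) (by rw [hy0, hp0, hM, iterR])
        (fun i hi => (hU _ _ (hy i hi)).mono e1)
        (fun j hj x x' hxx => (hA j hj x x' hxx).mono e1)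
        (fun i hi x x' hxx => (hBB i hi x x' hxx).mono e1)
      refine ⟨q, ?_, hqS, fun j hj => ?_⟩
      · rw [hq0, hyN]
        show _ = g.symm^[k] (υ t).val
        have e5 : g^[j₀] (g^[l] (υ t).val) = g^[k + l + j₀] (g.symm^[k] (υ t).val) := by
          rw [hM, iterR]
        rw [e5, iterL]
      · have h5 := hBB _ le_rfl _ _ (hqU j hj)
        rw [iterL, iterL] at h5
        exact h5.mono e2)
  obtain ⟨x', hx'⟩ := hrows
  rw [hpJ] at hx'
  exact LO_of_iter (φ := g.symm) (fun x => by rw [g.symm_apply_apply, g.apply_symm_apply]) k υ υk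
    s x' (fun t => rfl) hx'

end Pool.Agent.T6.H66.PS
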