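import Pool.Agent.T6.H66.PS.All
import Pool.Agent.H789R2.GP.ManExt
import Pool.Agent.H721R2.Setup

set_option autoImplicit false
set_option linter.unusedSectionVars false

open Filter Topology Set Metric unitInterval
open scoped Manifold ContDiff

namespace Pool.Agent.T6.H66.PS

open Pool.Agent.H789R2.AN Pool.Agent.H789R2.GP Pool.Agent.H721R2

section abstract

variable {X F : Type*} [MetricSpace X] [NormedAddCommGroup F] [NormedSpace ℝ F]

/-- From liftability to the covering. -/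
theorem cov_of_Lf [CompactSpace X] [Nonempty X] {E : Type*} [NormedAddCommGroup E]
    [NormedSpace ℝ E] [ProperSpace E] [ChartedSpace E X] (S : HypSys X F) {c : ℝ} (h : LP S.g c)
    (hall : ∀ a s, WS S.g a s → Lf S.g a s) : ∃ π : E → X, IsCoveringMap π := by
  obtain ⟨c', hc', ⟨T⟩⟩ := exists_QS h (ulc_of_charted (X := X) (E := E)) hall
  obtain ⟨q, hq, p, hp⟩ := S.exists_periodic
  exact exists_covering h hc' T p q hq hp

/-- Coarse pinching from growth conditions for the metric steps. -/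
theorem cpin_of_growth (S : HypSys X F) {α β δ e1 e2 : ℝ} (hα0 : 0 ≤ α) (hβ0 : 0 ≤ β)
    (hα1 : α ≤ 1) (hβ1 : β ≤ 1) (hδ : 0 < δ)
    (h1 : ∀ x y : X, S.SRel e1 x y → ∀ k : ℕ, dist (S.g^[k] x) (S.g^[k] y) ≤ α ^ k * dist x y)
    (h2 : ∀ x y : X, S.URel e2 x y → ∀ k : ℕ,
      dist (S.g.symm^[k] x) (S.g.symm^[k] y) ≤ β ^ k * dist x y)
    (d1 : δ ≤ e1) (d2 : δ ≤ e2) {ms mu : ℕ}
    (h4 : ∀ x y : X, S.SRel δ x y → Chain (S.SRel δ) ms (S.g.symm x) (S.g.symm y))
    (h5 : ∀ x y : X, S.URel δ x y → Chain (S.URel δ) mu (S.g x) (S.g y))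
    (growth : ∀ K : ℕ, ∃ k n : ℕ, k ≤ n ∧ ((ms : ℝ) ^ k * K) * α ^ n ≤ 1 ∧
      β ^ n * ((mu : ℝ) ^ (n - k) * K) ≤ 1) :
    CPin S.g (S.SRel δ) (S.URel δ) := by
  intro K
  obtain ⟨k, n, hkn, g1, g2⟩ := growth K
  have hn : k + (n - k) = n := by omega
  have contr : ∀ (g : X ≃ₜ X) (γ : ℝ), 0 ≤ γ → γ ≤ 1 →
      (∀ x y : X, (∀ k : ℕ, dist (g^[k] x) (g^[k] y) ≤ δ) →
        ∀ k : ℕ, dist (g^[k] x) (g^[k] y) ≤ γ ^ k * dist x y) → ∀ (N : ℕ) (x y : X),
      (N : ℝ) * γ ^ n ≤ 1 → Chain (fun x y => ∀ k : ℕ, dist (g^[k] x) (g^[k] y) ≤ δ) N x y →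
      ∀ t : ℕ, dist (g^[t] (g^[n] x)) (g^[t] (g^[n] y)) ≤ δ := by
    intro g γ hγ0 hγ1 hg N x y hN hxy t
    obtain ⟨c, hc0, hcN, hc⟩ := hxy
    rw [← Function.iterate_add_apply, ← Function.iterate_add_apply]
    have key : ∀ i ≤ N, dist (g^[t + n] (c 0)) (g^[t + n] (c i)) ≤ i * (γ ^ n * δ) := by
      intro i
      induction i with
      | zero => intro _; simp
      | succ i ih =>
        intro hi
        have b1 := ih (by omega)
        have b2 := hg _ _ (hc i (by omega)) (t + n)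
        have b3 : dist (c i) (c (i + 1)) ≤ δ := hc i (by omega) 0
        have b4 : γ ^ (t + n) * dist (c i) (c (i + 1)) ≤ γ ^ n * δ :=
          mul_le_mul (pow_le_pow_of_le_one hγ0 hγ1 (by omega)) b3 dist_nonneg (by positivity)
        have b5 := dist_triangle (g^[t + n] (c 0)) (g^[t + n] (c i)) (g^[t + n] (c (i + 1)))
        push_cast
        linarith
    have b6 := key N le_rfl
    rw [hc0, hcN] at b6
    refine b6.trans ?_
    have b7 := mul_le_mul_of_nonneg_right hN hδ.le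
    linarith
  refine ⟨k, n - k, ms ^ k, mu ^ (n - k), ?_, ?_, ?_, ?_⟩
  · intro x y hxy
    have := chain_iter S.g.symm h4 k (Chain.single hxy)
    rwa [mul_one] at this
  · intro x y hxy
    rw [hn]
    exact contr S.g α hα0 hα1 (fun x y hxy k => h1 x y (fun j => (hxy j).trans d1) k) _ x y
      (by push_cast; linarith) hxy
  · intro x y hxy
    have := chain_iter S.g h5 (n - k) (Chain.single hxy)
    rwa [mul_one] at this
  · intro x y hxy
    rw [hn]
    exact contr S.g.symm β hβ0 hβ1 (fun x y hxy k => h2 x y (fun j => (hxy j).trans d2) k) _ x y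
      (by push_cast; linarith) hxy

end abstract

section conv

variable {X : Type*} [MetricSpace X]

/-- steps of `f` of size `𝒰` -/
def Stp (f : X → X) (𝒰 : Set (X × X)) (x y : X) : Prop := ∀ k : ℕ, (f^[k] x, f^[k] y) ∈ 𝒰

theorem inv_iterate {L : X → X → Prop} {f : X → X} (hf : ∀ x y, L x y → L (f x) (f y)) (n : ℕ)
    {x y : X} (h : L x y) : L (f^[n] x) (f^[n] y) := by
  induction n with
  | zero => exact h
  | succ n ih =>
    rw [Function.iterate_succ_apply', Function.iterate_succ_apply']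
    exact hf _ _ ih

/-- coarse pinching passes to iterates -/
theorem cpin_iter {f g : X ≃ₜ X} {n : ℕ} (hn : 1 ≤ n) (hg : ∀ k x, g^[k] x = f^[n * k] x)
    (hg' : ∀ k x, g.symm^[k] x = f.symm^[n * k] x) (LS LU : X → X → Prop) (hSr : ∀ x, LS x x)
    (hUr : ∀ x, LU x x) (hSf : ∀ x y, LS x y → LS (f x) (f y))
    (hUf : ∀ x y, LU x y → LU (f.symm x) (f.symm y)) (B : ℕ) (hB1 : 1 ≤ B)
    (hBs : ∀ x y, LS x y → Chain LS B (f.symm x) (f.symm y))
    (hBu : ∀ x y, LU x y → Chain LU B (f x) (f y)) (h : CPin f LS LU) : CPin g LS LU := by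
  intro K
  obtain ⟨k, l, R, S, P1, P2, P3, P4⟩ := h (K * B ^ n)
  have hup : ∀ k : ℕ, ∃ r ≤ n, n * (k / n + 1) = r + k := by
    intro k
    refine ⟨n * (k / n + 1) - k, ?_, ?_⟩
    · have := Nat.div_add_mod k n
      rw [mul_add, mul_one]
      omega
    · have := Nat.div_add_mod k n
      have := Nat.mod_lt k (show 0 < n by omega)
      rw [mul_add, mul_one]
      omega
  obtain ⟨r, hr, hk⟩ := hup k
  obtain ⟨r', hr', hl⟩ := hup l
  have hpow : ∀ r ≤ n, ∀ m : ℕ, B ^ r * m ≤ B ^ n * m := fun r hr m =>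
    Nat.mul_le_mul_right _ (Nat.pow_le_pow_right hB1 hr)
  have htot : n * (k / n + 1 + (l / n + 1)) = (r + r') + (k + l) := by
    rw [mul_add, hk, hl]; ring
  refine ⟨k / n + 1, l / n + 1, B ^ n * R, B ^ n * S, ?_, ?_, ?_, ?_⟩
  · intro x y hxy
    rw [hg', hg', hk, Function.iterate_add_apply, Function.iterate_add_apply]
    exact chain_pad hSr (chain_iter f.symm hBs r (P1 x y hxy)) (hpow r hr R)
  · intro x y hxy
    rw [hg, hg, htot, Function.iterate_add_apply _ (r + r') (k + l),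
      Function.iterate_add_apply _ (r + r') (k + l)]
    refine inv_iterate hSf _ (P2 x y ?_)
    rwa [← mul_assoc] at hxy
  · intro x y hxy
    rw [hg, hg, hl, Function.iterate_add_apply, Function.iterate_add_apply]
    exact chain_pad hUr (chain_iter f hBu r' (P3 x y hxy)) (hpow r' hr' S)
  · intro x y hxy
    rw [hg', hg', htot, Function.iterate_add_apply _ (r + r') (k + l),
      Function.iterate_add_apply _ (r + r') (k + l)]
    refine inv_iterate hUf _ (P4 x y ?_)
    rwa [← mul_assoc] at hxy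

end conv

end Pool.Agent.T6.H66.PS
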