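import Pool.Agent.H789R2.GP.Good
import Pool.Agent.H789R2.GP.LeafP
import Pool.Agent.H721R2.Chain

set_option autoImplicit false

open Filter Topology Set Metric unitInterval

namespace Pool.Agent.T6.H66.PS

open Pool.Agent.H789R2.AN Pool.Agent.H789R2.GP Pool.Agent.H721R2

variable {X : Type*} [MetricSpace X]

/-- `SR` is transitive up to adding the bounds. -/
theorem SR_tr {g : X ≃ₜ X} {ε ε' : ℝ} {x y z : X} (h : SR g ε x y) (h' : SR g ε' y z) :
    SR g (ε + ε') x z := fun k => (dist_triangle _ (g^[k] y) _).trans (add_le_add (h k) (h' k))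

theorem SR_refl (g : X ≃ₜ X) {ε : ℝ} (hε : 0 ≤ ε) (x : X) : SR g ε x x := fun k => by
  rw [dist_self]; exact hε

theorem SR_d {g : X ≃ₜ X} {ε : ℝ} {x y : X} (h : SR g ε x y) : dist x y ≤ ε := h 0

/-- The ladder: a chain of small stable steps can be moved along a chain of small unstable steps
(seen at time `M`), provided that chains of this length are contracted from time `0` to time `M`
(stable), resp. from time `M` to time `0` (unstable). -/
theorem ladder [CompactSpace X] {g : X ≃ₜ X} {c : ℝ} (h : LP g c) :
    ∃ κ > 0, κ ≤ c / 8 ∧ ∀ (M J N : ℕ) (p y : ℕ → X),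
      (∀ j < J, SR g κ (p j) (p (j + 1))) → y 0 = g^[M] (p 0) →
      (∀ i < N, SR g.symm κ (y i) (y (i + 1))) →
      (∀ j ≤ J, ∀ x x' : X, Chain (SR g (c / 8)) j x x' → SR g κ (g^[M] x) (g^[M] x')) →
      (∀ i ≤ N, ∀ x x' : X, Chain (SR g.symm (c / 8)) i x x' →
        SR g.symm κ (g.symm^[M] x) (g.symm^[M] x')) →
      ∃ q : ℕ → X, q 0 = g.symm^[M] (y N) ∧ (∀ j < J, SR g (c / 8) (q j) (q (j + 1))) ∧
        ∀ j ≤ J, Chain (SR g.symm (c / 8)) N (g^[M] (p j)) (g^[M] (q j)) := by
  obtain ⟨br, δ, hδ, -, h2, h3, -⟩ := exists_br h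
  have hc := h.c_pos
  obtain ⟨η, hη, hbr⟩ := h2 (c / 8) (by linarith)
  set κ := min (η / 3) (min (δ / 3) (c / 8)) with hκ
  have hκ0 : 0 < κ := by positivity
  have k1 : κ ≤ η / 3 := min_le_left _ _
  have k2 : κ ≤ δ / 3 := (min_le_right _ _).trans (min_le_left _ _)
  have k3 : κ ≤ c / 8 := (min_le_right _ _).trans (min_le_right _ _)
  refine ⟨κ, hκ0, k3, fun M J N p y hp hy0 hy hA hB => ?_⟩
  have key : ∀ i ≤ N, ∃ q : ℕ → X, q 0 = g.symm^[M] (y i) ∧
      (∀ j < J, SR g (c / 8) (q j) (q (j + 1))) ∧
      ∀ j ≤ J, Chain (SR g.symm (c / 8)) i (g^[M] (p j)) (g^[M] (q j)) := by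
    intro i
    induction i with
    | zero =>
      intro _
      refine ⟨p, ?_, fun j hj => (hp j hj).mono k3, fun j _ => Chain.refl _⟩
      rw [hy0, iterL]
    | succ i ih =>
      intro hi
      obtain ⟨q, hq0, hqS, hqU⟩ := ih (by omega)
      have hq0' : g^[M] (q 0) = y i := by rw [hq0, iterR]
      have hrow : ∀ j ≤ J, SR g κ (y i) (g^[M] (q j)) := by
        intro j hj
        have h5 := hA j hj (q 0) (q j) ⟨q, rfl, rfl, fun r hr => hqS r (by omega)⟩
        rwa [hq0'] at h5
      have hyi := hy i (by omega)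
      have hd : ∀ j ≤ J, dist (y (i + 1)) (g^[M] (q j)) ≤ 2 * κ := by
        intro j hj
        have a1 := SR_d hyi
        have a2 := SR_d (hrow j hj)
        have a3 := dist_triangle_left (y (i + 1)) (g^[M] (q j)) (y i)
        linarith
      let w : ℕ → X := fun j => br (y (i + 1)) (g^[M] (q j))
      have hw : ∀ j ≤ J, SR g (c / 8) (y (i + 1)) (w j) ∧
          SR g.symm (c / 8) (g^[M] (q j)) (w j) := fun j hj =>
        hbr _ _ (lt_of_le_of_lt (hd j hj) (by linarith))
      have hw0 : w 0 = y (i + 1) := by
        refine (h3 _ _ _ (lt_of_le_of_lt (hd 0 (by omega)) (by linarith))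
          (SR_refl g (by linarith) _) ?_).symm
        rw [hq0']
        exact hyi.mono (by linarith)
      let q' : ℕ → X := fun j => g.symm^[M] (w j)
      have hq'w : ∀ j, g^[M] (q' j) = w j := fun j => iterR g M (w j)
      have hchain : ∀ j ≤ J, Chain (SR g.symm (c / 8)) (i + 1) (g^[M] (p j)) (g^[M] (q' j)) := by
        intro j hj
        refine (hqU j hj).trans (Chain.single ?_)
        rw [hq'w]
        exact (hw j hj).2
      have hUp : ∀ j ≤ J, SR g.symm κ (p j) (q' j) := by
        intro j hj
        have h5 := hB (i + 1) hi _ _ (hchain j hj)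
        rwa [iterL, iterL] at h5
      refine ⟨q', by show g.symm^[M] (w 0) = _; rw [hw0], fun j hj => ?_, hchain⟩
      -- the new links
      have hdz : dist (q' j) (p (j + 1)) ≤ 2 * κ := by
        have a1 := SR_d (hUp j (by omega))
        have a2 := SR_d (hp j hj)
        have a3 := dist_triangle_left (q' j) (p (j + 1)) (p j)
        linarith
      obtain ⟨hz1, hz2⟩ := hbr (q' j) (p (j + 1)) (lt_of_le_of_lt hdz (by linarith))
      set z := br (q' j) (p (j + 1)) with hz
      have hzeq : z = q' (j + 1) := by
        refine expansive h (fun t => ?_) ?_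
        · rcases le_total t M with ht | ht
          · have e1 : ∀ v : X, g^[t] v = g.symm^[M - t] (g^[M] v) := by
              intro v
              have e2 : M = t + (M - t) := by omega
              have e3 : g^[M] v = g^[M - t] (g^[t] v) := by
                rw [← Function.iterate_add_apply]
                congr 1
                omega
              rw [e3, iterL]
            have b1 : dist (g^[t] z) (g^[t] (q' j)) ≤ c / 8 := by
              rw [dist_comm]; exact hz1 t
            have b2 : dist (g^[t] (q' j)) (g^[t] (q j)) ≤ c / 8 := by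
              rw [e1 (q' j), e1 (q j), hq'w, dist_comm]
              exact (hw j (by omega)).2 _
            have b3 : dist (g^[t] (q j)) (g^[t] (q (j + 1))) ≤ c / 8 := hqS j hj t
            have b4 : dist (g^[t] (q (j + 1))) (g^[t] (q' (j + 1))) ≤ c / 8 := by
              rw [e1 (q' (j + 1)), e1 (q (j + 1)), hq'w]
              exact (hw (j + 1) (by omega)).2 _
            have b5 := dist_triangle4 (g^[t] z) (g^[t] (q' j)) (g^[t] (q j)) (g^[t] (q (j + 1)))
            have b6 := dist_triangle (g^[t] z) (g^[t] (q (j + 1))) (g^[t] (q' (j + 1)))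
            linarith
          · have e1 : ∀ v : X, g^[t] v = g^[t - M] (g^[M] v) := by
              intro v
              rw [← Function.iterate_add_apply]
              congr 1
              omega
            have b1 : dist (g^[t] z) (g^[t] (q' j)) ≤ c / 8 := by
              rw [dist_comm]; exact hz1 t
            have b2 : dist (g^[t] (q' j)) (g^[t - M] (y (i + 1))) ≤ c / 8 := by
              rw [e1 (q' j), hq'w, dist_comm]
              exact (hw j (by omega)).1 _
            have b3 : dist (g^[t - M] (y (i + 1))) (g^[t] (q' (j + 1))) ≤ c / 8 := by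
              rw [e1 (q' (j + 1)), hq'w]
              exact (hw (j + 1) (by omega)).1 _
            have b5 := dist_triangle4 (g^[t] z) (g^[t] (q' j)) (g^[t - M] (y (i + 1)))
              (g^[t] (q' (j + 1)))
            linarith
        · exact (SR_tr hz2.symm' (hUp (j + 1) (by omega))).mono (by linarith)
      rw [← hzeq]
      exact hz1
  exact key N le_rfl

end Pool.Agent.T6.H66.PS
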