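import Pool.Agent.T6.H66.PS.Man

set_option autoImplicit false
set_option linter.unusedSectionVars false

open Filter Topology Set Metric
open scoped Manifold ContDiff

namespace Pool.Agent.T6.H66.PS

open Pool.Agent.H789R2.AN Pool.Agent.H789R2.GP Pool.Agent.H721R2

/-- the exponent -/
theorem exists_rho {μ₁ μ₂ l₁ l₂ : ℝ} (h1 : 0 < μ₁) (h2 : μ₁ ≤ μ₂) (h3 : μ₂ < 1) (h4 : 1 < l₁)
    (h5 : l₁ ≤ l₂) (hp : 1 < Real.log l₁ / Real.log l₂ + Real.log μ₂ / Real.log μ₁) :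
    ∃ ρ : ℝ, 1 ≤ ρ ∧ μ₁⁻¹ * μ₂ ^ ρ < 1 ∧ l₂ ^ (ρ - 1) * (l₁⁻¹) ^ ρ < 1 := by
  have hμ2 : 0 < μ₂ := by linarith
  have hl1 : 0 < l₁ := by linarith
  have hl2 : 0 < l₂ := by linarith
  set A := Real.log l₁ with hA
  set B := Real.log l₂ with hB
  set P := -Real.log μ₂ with hP
  set Q := -Real.log μ₁ with hQ
  have hA0 : 0 < A := Real.log_pos h4
  have hAB : A ≤ B := Real.log_le_log hl1 h5
  have hB0 : 0 < B := by linarith
  have hP0 : 0 < P := by
    have := Real.log_neg hμ2 h3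
    linarith
  have hPQ : P ≤ Q := by
    have := Real.log_le_log h1 h2
    linarith
  have hQ0 : 0 < Q := by linarith
  have hlog : Real.log μ₂ / Real.log μ₁ = P / Q := by
    rw [hP, hQ, neg_div_neg_eq]
  rw [hlog] at hp
  have hkey : 0 < Q * A + P * B - Q * B := by
    have h6 : A / B + P / Q = (A * Q + P * B) / (B * Q) := by field_simp
    rw [h6, lt_div_iff₀ (by positivity)] at hp
    linarith
  set D := Q * A + P * B - Q * B with hD
  set ε := D / (2 * P * B) with hε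
  have hε0 : 0 < ε := by positivity
  refine ⟨Q / P + ε, ?_, ?_, ?_⟩
  · have : 1 ≤ Q / P := by rw [le_div_iff₀ hP0]; linarith
    linarith
  · rw [← Real.log_neg_iff (by positivity), Real.log_mul (by positivity) (by positivity),
      Real.log_inv, Real.log_rpow hμ2]
    have e1 : Real.log μ₂ = -P := by rw [hP]; ring
    have e2 : -Real.log μ₁ = Q := rfl
    rw [e1, e2]
    have e3 : Q + (Q / P + ε) * -P = -(ε * P) := by field_simp; ring
    rw [e3]
    have : 0 < ε * P := by positivity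
    linarith
  · rw [← Real.log_neg_iff (by positivity), Real.log_mul (by positivity) (by positivity),
      Real.log_rpow hl2, Real.log_rpow (by positivity), Real.log_inv]
    change (Q / P + ε - 1) * B + (Q / P + ε) * -A < 0
    have e3 : (Q / P + ε - 1) * B + (Q / P + ε) * -A = -(D / P) + ε * (B - A) := by
      rw [hD]; field_simp; ring
    rw [e3]
    have e4 : ε * (B - A) ≤ ε * B := mul_le_mul_of_nonneg_left (by linarith) hε0.le
    have e5 : ε * B = D / P / 2 := by rw [hε]; field_simp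
    have e6 : 0 < D / P := by positivity
    linarith

section manifold

variable {E : Type*} [NormedAddCommGroup E] [NormedSpace ℝ E] [FiniteDimensional ℝ E]
  {M : Type*} [TopologicalSpace M] [T2Space M] [CompactSpace M] [ConnectedSpace M]
  [ChartedSpace E M] [IsManifold 𝓘(ℝ, E) ∞ M]

/-- **Pinched spectrum.** -/
theorem man_rates (f : Diffeomorph 𝓘(ℝ, E) 𝓘(ℝ, E) M M 1)
    (N : TangentBundle 𝓘(ℝ, E) M → ℝ) (hN : IsTangentNorm N)
    (Es Eu : ∀ x : M, Submodule ℝ (TangentSpace 𝓘(ℝ, E) x)) (C μ₁ μ₂ l₁ l₂ : ℝ)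
    (hf : AnosovRates f N Es Eu C μ₁ μ₂ l₁ l₂)
    (hp : 1 < Real.log l₁ / Real.log l₂ + Real.log μ₂ / Real.log μ₁) :
    ∃ π : E → M, IsCoveringMap π ∧ Function.Surjective π := by
  obtain ⟨m, e, he, hemb, hinj⟩ := exists_embedding_euclidean_of_compact (I := 𝓘(ℝ, E)) (M := M)
  let _ : MetricSpace M := hemb.isEmbedding.comapMetricSpace e
  have hiso : ∀ x y : M, dist x y = ‖e x - e y‖ := fun x y => dist_eq_norm (e x) (e y)
  have he1 : ContMDiff 𝓘(ℝ, E) (𝓡 m) 1 e := he.of_le (by simp)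
  have : ProperSpace E := FiniteDimensional.proper_real E
  obtain ⟨ρ, hρ, h1, h2⟩ := exists_rho hf.mu_pos hf.mu_le hf.mu_lt hf.lam_gt hf.lam_le hp
  let φ : M ≃ₜ M := f.toHomeomorph
  obtain ⟨C', h⟩ := eanosov_of_rates hN e he1 hinj φ f.contMDiff f.symm.contMDiff Es Eu
    C μ₁ μ₂ l₁ l₂ hf
  obtain ⟨K, hK, hang⟩ := h.angle he1 hinj
  have hC := h.C_pos
  have hC0 : 0 < C' := by linarith
  have ha0 := h.a_pos
  have hb0 := h.b_pos
  have hLs := h.Ls_le
  have hLu := h.Lu_le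
  obtain ⟨n₀, hN1, hKa, hKb, h3, h4, h5, h6⟩ := exists_good_N C' μ₂ l₁⁻¹ μ₁⁻¹ l₂ ρ K hC h.a_pos
    h.a_lt h.b_pos h.b_lt h.Ls_le h.Lu_le hρ h1 h2 hK
  obtain ⟨S, hg, hSa, hSb, hSLs, hSLu, hSK⟩ := exists_hypSys hiso he1 hinj h K hK hang n₀ hKa hKb
  set α := 2 * (C' * μ₂ ^ n₀) with hα
  set β := 2 * (C' * l₁⁻¹ ^ n₀) with hβ
  have haN : 0 < C' * μ₂ ^ n₀ := by positivity
  have hbN : 0 < C' * l₁⁻¹ ^ n₀ := by positivity
  have hLsN : 1 ≤ C' * μ₁⁻¹ ^ n₀ := by
    have := one_le_pow₀ hLs (n := n₀)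
    nlinarith
  have hLuN : 1 ≤ C' * l₂ ^ n₀ := by
    have := one_le_pow₀ hLu (n := n₀)
    nlinarith
  set ms := ⌈4 * (C' * μ₁⁻¹ ^ n₀)⌉₊ with hms
  set mu := ⌈4 * (C' * l₂ ^ n₀)⌉₊ with hmu
  have hms1 : 4 * (C' * μ₁⁻¹ ^ n₀) ≤ ms := Nat.le_ceil _
  have hmu1 : 4 * (C' * l₂ ^ n₀) ≤ mu := Nat.le_ceil _
  have hms2 : (ms : ℝ) ≤ 5 * C' * μ₁⁻¹ ^ n₀ := by
    have := Nat.ceil_lt_add_one (by positivity : 0 ≤ 4 * (C' * μ₁⁻¹ ^ n₀))
    linarith
  have hmu2 : (mu : ℝ) ≤ 5 * C' * l₂ ^ n₀ := by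
    have := Nat.ceil_lt_add_one (by positivity : 0 ≤ 4 * (C' * l₂ ^ n₀))
    linarith
  have hgr := HypSys.growth_of_lt α β ms mu K ρ (by positivity)
    (by linarith) (by positivity) (by linarith) (by linarith) (by linarith) (by linarith) hρ
    (by
      refine lt_of_le_of_lt ?_ h5
      exact mul_le_mul_of_nonneg_right hms2 (by positivity))
    (by
      refine lt_of_le_of_lt ?_ h6
      apply mul_le_mul_of_nonneg_right _ (by positivity)
      exact Real.rpow_le_rpow (by positivity) hmu2 (by linarith))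
  obtain ⟨c, hLP⟩ := exists_LP S
  have hX : ULC M := ulc_of_charted (X := M) (E := E)
  obtain ⟨κ, hκ, hall⟩ := all_Lf hLP hX
  obtain ⟨e1, he1', k1⟩ := S.contraction_iter α (by rw [hSa]; linarith)
  obtain ⟨e2, he2', k2⟩ := S.symm.contraction_iter β (by
    show S.b < β
    rw [hSb]; linarith)
  obtain ⟨e4, he4, k4⟩ := S.subdivide ms (by rw [hSLs]; exact hms1)
  obtain ⟨e5, he5, k5⟩ := S.symm.subdivide mu (by
    show 4 * S.Lu ≤ mu
    rw [hSLu]; exact hmu1)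
  set δ := min κ (min (min e1 e2) (min e4 e5)) with hδ
  have hδ0 : 0 < δ := by positivity
  have d0 : δ ≤ κ := min_le_left _ _
  have d1 : δ ≤ e1 := (min_le_right _ _).trans ((min_le_left _ _).trans (min_le_left _ _))
  have d2 : δ ≤ e2 := (min_le_right _ _).trans ((min_le_left _ _).trans (min_le_right _ _))
  have d4 : δ ≤ e4 := (min_le_right _ _).trans ((min_le_right _ _).trans (min_le_left _ _))
  have d5 : δ ≤ e5 := (min_le_right _ _).trans ((min_le_right _ _).trans (min_le_right _ _))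
  have hcp : CPin S.g (S.SRel δ) (S.URel δ) := by
    refine cpin_of_growth S (α := α) (β := β) (e1 := e1) (e2 := e2) (ms := ms) (mu := mu)
      (by positivity) (by positivity) (by linarith) (by linarith) hδ0 k1
      (fun x y hxy k => k2 x y hxy k) d1 d2 (fun x y hxy => k4 δ hδ0 d4 x y hxy)
      (fun x y hxy => k5 δ hδ0 d5 x y hxy) ?_
    intro K'
    obtain ⟨k, n, -, hkn, g1, g2⟩ := hgr K' K'
    have hαn : 0 ≤ α ^ n := by positivity
    refine ⟨k, n, hkn, ?_, ?_⟩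
    · have : 0 ≤ (ms : ℝ) ^ k * K' * α ^ n := by positivity
      linarith
    · have h7 : 0 ≤ β ^ n * ((mu : ℝ) ^ (n - k) * K') := by positivity
      have h8 : 1 * (β ^ n * ((mu : ℝ) ^ (n - k) * K')) ≤
          (36 * K) * (β ^ n * ((mu : ℝ) ^ (n - k) * K')) :=
        mul_le_mul_of_nonneg_right (by linarith) h7
      linarith
  obtain ⟨π, hπ⟩ := cov_of_Lf (E := E) S hLP (hall (S.SRel δ) (S.URel δ)
    (fun x y hxy => fun k => (hxy k).trans d0) ⟨δ, hδ0, fun x y hxy => hxy⟩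
    (fun x y hxy => fun k => (hxy k).trans d0) ⟨δ, hδ0, fun x y hxy => hxy⟩ hcp)
  exact ⟨π, hπ, covering_surj hπ⟩

end manifold

end Pool.Agent.T6.H66.PS
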