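import Pool.Agent.T6.H66.PS.Ladder

set_option autoImplicit false

open Filter Topology Set Metric unitInterval

namespace Pool.Agent.T6.H66.PS

open Pool.Agent.H789R2.AN Pool.Agent.H789R2.GP Pool.Agent.H721R2

variable {X : Type*} [MetricSpace X]

theorem pow_half_small (c : ℝ) {ε : ℝ} (hε : 0 < ε) : ∃ n : ℕ, ∀ m ≥ n, c * (1 / 2 : ℝ) ^ m ≤ ε := by
  have h5 : Tendsto (fun n : ℕ => c * (1 / 2 : ℝ) ^ n) atTop (𝓝 0) := by
    have := (tendsto_pow_atTop_nhds_zero_of_lt_one (by norm_num : (0:ℝ) ≤ 1 / 2)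
      (by norm_num)).const_mul c
    simpa using this
  obtain ⟨K, hK⟩ := eventually_atTop.mp ((tendsto_order.mp h5).2 ε hε)
  exact ⟨K, fun k hk => (hK k hk).le⟩

/-- Continuity in the leaf metric follows from continuity for points in a small local leaf. -/
theorem cont_SM [CompactSpace X] {g : X ≃ₜ X} {c : ℝ} (h : LP g c) {A : Type*} [TopologicalSpace A]
    (F : A → X) (hF : Continuous F) (hs : ∀ t t', SR g c (F t) (F t')) :
    Continuous fun t => (⟨F t⟩ : SM g) := by
  rw [continuous_iff_continuousAt]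
  intro a
  rw [Metric.continuousAt_iff']
  intro ε hε
  obtain ⟨K, hK⟩ := pow_half_small c (half_pos hε)
  have h5 : ∀ᶠ a' in 𝓝 a, ∀ k ∈ Finset.range K, dist (g^[k] (F a')) (g^[k] (F a)) < ε / 2 := by
    rw [Filter.eventually_all_finset]
    intro k _
    have hc' : Continuous fun a' => g^[k] (F a') := (g.continuous.iterate k).comp hF
    exact Metric.continuousAt_iff'.mp (hc'.continuousAt (x := a)) (ε / 2) (by linarith)
  filter_upwards [h5] with a' ha'
  refine lt_of_le_of_lt ((SM.dist_le _ _ (by linarith : (0 : ℝ) ≤ ε / 2)).mpr ?_)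
    (by linarith : ε / 2 < ε)
  intro k
  show dist (g^[k] (F a')) (g^[k] (F a)) ≤ ε / 2
  rcases lt_or_ge k K with hk | hk
  · exact (ha' k (Finset.mem_range.mpr hk)).le
  · exact (h.cS _ _ (hs a' a) k).trans (hK k hk)

/-- Rows over all points of an unstable path give a strip. -/
theorem lift_of_rows [CompactSpace X] {g : X ≃ₜ X} {c : ℝ} (h : LP g c) :
    ∃ κ > 0, ∀ (J : ℕ) (p : ℕ → X) (υ : C(I, SM g.symm)),
      (∀ j < J, SR g κ (p j) (p (j + 1))) → (υ 0).val = p 0 →
      (∀ t, ∃ q : ℕ → X, q 0 = (υ t).val ∧ (∀ j < J, SR g (c / 8) (q j) (q (j + 1))) ∧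
        ∀ j ≤ J, SR g.symm κ (p j) (q j)) → ∃ x, LO υ (p J) x := by
  obtain ⟨br, δ, hδ, -, -, h3, h4⟩ := exists_br h
  have hc := h.c_pos
  set κ := min (δ / 3) (c / 8) with hκ
  have hκ0 : 0 < κ := by positivity
  have k2 : κ ≤ δ / 3 := min_le_left _ _
  have k3 : κ ≤ c / 8 := min_le_right _ _
  refine ⟨κ, hκ0, fun J p υ hp hυ0 hq => ?_⟩
  choose q hq0 hqS hqU using hq
  have hd : ∀ t, ∀ j < J, dist (q t j) (p (j + 1)) < δ := by
    intro t j hj
    have a1 := SR_d (hqU t j hj.le)
    have a2 := SR_d (hp j hj)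
    have a3 := dist_triangle_left (q t j) (p (j + 1)) (p j)
    linarith
  have hbr : ∀ t, ∀ j < J, q t (j + 1) = br (q t j) (p (j + 1)) := fun t j hj =>
    h3 _ _ _ (hd t j hj) ((hqS t j hj).mono (by linarith)) ((hqU t (j + 1) hj).mono (by linarith))
  have hpq : ∀ j ≤ J, q 0 j = p j := by
    intro j
    induction j with
    | zero => intro _; rw [hq0, hυ0]
    | succ j ih =>
      intro hj
      have h5 := ih (by omega)
      have h6 := hbr 0 j (by omega)
      have h7 := hd 0 j (by omega)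
      rw [h5] at h6 h7
      rw [h6]
      exact (h3 _ _ _ h7 ((hp j (by omega)).mono (by linarith))
        (SR_refl _ (by linarith) _)).symm
  have hcontX : ∀ j ≤ J, Continuous fun t => q t j := by
    intro j
    induction j with
    | zero =>
      intro _
      have : (fun t => q t 0) = fun t => (υ t).val := funext hq0
      rw [this]
      exact SM.val_continuous.comp υ.continuous
    | succ j ih =>
      intro hj
      have h5 := ih (by omega)
      rw [Metric.continuous_iff]
      intro a ε hε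
      obtain ⟨η, hη, h6⟩ := h4 ε hε
      obtain ⟨ρ, hρ, h7⟩ := Metric.continuous_iff.mp h5 a η hη
      refine ⟨ρ, hρ, fun a' ha' => ?_⟩
      rw [hbr a' j (by omega), hbr a j (by omega)]
      exact h6 _ _ _ _ (hd a' j (by omega)) (hd a j (by omega)) (h7 a' ha')
        (by rw [dist_self]; exact hη)
  have hcontU : ∀ j ≤ J, Continuous fun t => (⟨q t j⟩ : SM g.symm) := fun j hj =>
    cont_SM h.symm (fun t => q t j) (hcontX j hj) fun t t' =>
      (SR_tr (hqU t j hj).symm' (hqU t' j hj)).mono (by linarith)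
  have hdec : ∀ t, ∀ n : ℕ, dist (g^[n] (q t 0)) (g^[n] (q t J)) ≤ J * (c * (1 / 2) ^ n) := by
    intro t n
    have : ∀ j ≤ J, dist (g^[n] (q t 0)) (g^[n] (q t j)) ≤ j * (c * (1 / 2) ^ n) := by
      intro j
      induction j with
      | zero => intro _; simp
      | succ j ih =>
        intro hj
        have b1 := ih (by omega)
        have b2 := h.cS _ _ ((hqS t j (by omega)).mono (by linarith)) n
        have b3 := dist_triangle (g^[n] (q t 0)) (g^[n] (q t j)) (g^[n] (q t (j + 1)))
        push_cast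
        linarith
    exact this J le_rfl
  have htend : Tendsto (fun n : ℕ => (J : ℝ) * (c * (1 / 2 : ℝ) ^ n)) atTop (𝓝 0) := by
    have := ((tendsto_pow_atTop_nhds_zero_of_lt_one (by norm_num : (0:ℝ) ≤ 1 / 2)
      (by norm_num)).const_mul c).const_mul (J : ℝ)
    simpa using this
  let F : I → Pr g := fun t => ⟨q t 0, q t J, squeeze_zero (fun _ => dist_nonneg) (hdec t) htend⟩
  have hF : Continuous F := by
    rw [Pr.continuous_iff]
    refine ⟨hcontU 0 (by omega), hcontU J le_rfl, fun a ε hε => ?_⟩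
    obtain ⟨K, hK⟩ := eventually_atTop.mp ((tendsto_order.mp htend).2 ε hε)
    exact ⟨K, Eventually.of_forall fun a' k hk => (hdec a' k).trans (hK k hk).le⟩
  exact ⟨q 1 J, ⟨F, hF⟩, hpq J le_rfl, rfl, fun t => hq0 t⟩

end Pool.Agent.T6.H66.PS
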